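import Mathlib
import Pool.Agent.Y725.UG.RatMany
import Pool.Agent.X289.Burn

/-!
# Algebraic cuspidal representations of `GL_2` over `ℚ` of weight zero: the field of coefficients

Let `F` be a number field of degree `m`. For every embedding `σ` of `F` into `ℂ` let `π_σ` be a unitary cuspidal
automorphic representation of `GL_2` over `ℚ` with Satake parameters `α_σ(p), β_σ(p)`, `p ∉ S`, and suppose that for
every `p ∉ S` the numbers `|α_σ(p) + β_σ(p)|²` are the conjugates `σ(y_p)` of one algebraic integer `y_p` of `F`. This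
is so if the `π_σ` are the conjugates of an algebraic representation `π` (of weight zero, i.e. `π_∞` is of Galois type, as
for Maass forms of eigenvalue `1/4`) whose Hecke eigenvalues are algebraic integers; if `F = ℚ`, there is only one
representation, with `|α(p) + β(p)|² ∈ ℤ`.

We show: if the lifts `A⁴ π_σ = Sym⁴ π_σ ⊗ ω_σ^{-2}` to `GL_5` are cuspidal, then there are a prime `p ∉ S` and `k ≥ 1`,

  `p^k ≤ A ∏_σ C_σ^{1+ε}`, `A` depending only on `m` and `ε`, `C_σ` the analytic conductor of `L(s, A⁴ π_σ × A⁴ π_σ)`,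

such that for all `σ` the number `(α_σ(p) / β_σ(p))^k` is a primitive fifth root of unity. **In particular `√5 ∈ F`.**

So, if `√5 ∉ F`, then `A⁴ π_σ` is not cuspidal for some `σ`, and `π_σ` is dihedral, tetrahedral or octahedral (Kim,
Shahidi), and it corresponds to a Galois representation. It suffices to check the integrality at the primes below the
bound. If `√5 ∈ F`, the theorem says that there are Frobenius elements whose order is divisible by `5`, as there have to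
be if the Galois representation exists (it is then icosahedral). In the same way, if the `Ad π_σ` are cuspidal, then
there are `p ∉ S` and `k` such that `(α_σ(p) / β_σ(p))^k` is a primitive third root of unity for all `σ`, and there
always are `p ∉ S` and `k` such that `(α_σ(p) / β_σ(p))^k = -1` for all `σ`.

The proof is an automorphic version of the argument of Burnside for the zeros of irreducible characters: the trace of
the `k`-th power of the parameter of `A⁴ π_σ` is `σ(u)`, `u = t² + t - 1`, with an algebraic integer `t` of `F`. If `u` is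
not zero, then `∑_σ |σ(u)|² ≥ m`, by the inequality between the geometric and the arithmetic mean. If this is so for
all prime powers up to `X`, then the logarithm of `∏_σ L(s, A⁴ π_σ × A⁴ π_σ) / ζ(s)^m` has nonnegative coefficients up
to `X`, which contradicts the functional equation: this is the uniform version of Landau's theorem
`Pool.Agent.Y725.UG.rat_many`, from `MP_8410ab_nt.SimultaneouslyTempered`. So `u = 0` for some `p^k`.

The structure `CuspidalQ` (from that file, where it is explained) lists what is used of a representation; `unitary`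
is used only for the representations of `GL_2`.
-/

set_option autoImplicit false

namespace Pool.Agent.Results.MP_ef641d_nt.FieldOfCoefficients

open NumberField

/-- the primes outside `S` -/
abbrev Unram (S : Finset Nat.Primes) := {p : Nat.Primes // p ∉ S}

/-- `∑_{p ∉ S} ∑_{k ≥ 1} (|∑_i α_{i,p}^k|² - 1) / k · p^{-ks}`, the logarithm of
`∏_{p ∉ S} (1 - p^{-s}) L(s, Π_p × Π~_p)` -/
noncomputable def logAd {S : Finset Nat.Primes} {n : ℕ} (α : Unram S → Fin n → ℂ) (s : ℂ) : ℂ :=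
  ∑' x : Unram S × ℕ, (((‖∑ i, α x.1 i ^ (x.2 + 1)‖ ^ 2 - 1) / ((x.2 : ℝ) + 1) : ℝ) : ℂ) *
    (((x.1.1 : ℕ) : ℂ) ^ (-s)) ^ (x.2 + 1)

/-- the parameters of a unitary representation -/
def Unitary {n : ℕ} (a : Fin n → ℂ) : Prop :=
  (∀ i, a i ≠ 0) ∧ ∃ τ : Equiv.Perm (Fin n), ∀ i, a (τ i) = ((starRingEnd ℂ) (a i))⁻¹

/-- What is used of a unitary cuspidal automorphic representation `Π` of `GL_n` over `ℚ`: `α` are the Satake parameters
outside `S`, `β` the reciprocal roots of `L(s, Π_p × Π~_p) / ζ_p(s)` at `p ∈ S`, `T` the factors to be removed, `0, κ`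
the parameters of the Gamma factors and `Q²` the conductor of `L(s, Π × Π~)`. -/
structure CuspidalQ {S : Finset Nat.Primes} {n : ℕ} (α : Unram S → Fin n → ℂ)
    (β : Nat.Primes → Fin (n ^ 2 - 1) → ℂ) (T : Finset (Nat.Primes × Fin (n ^ 2 - 1)))
    (κ : Fin (n ^ 2 - 1) → ℂ) (Q : ℝ) : Prop where
  /-- the bound of Jacquet and Shalika -/
  bound : ∀ p i, ‖α p i‖ < ((p.1 : ℕ) : ℝ) ^ (1 / 2 : ℝ)
  /-- the same at the primes of `S` -/
  ramified : ∀ p ∈ S, ∀ i, ‖β p i‖ < ((p : ℕ) : ℝ)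
  /-- the removed factors -/
  removed : ∀ x ∈ T, x.1 ∈ S ∧ ‖β x.1 x.2‖ = 1
  /-- the logarithms of the other factors at `S` have nonnegative coefficients -/
  nonneg : ∀ p ∈ S, ∀ k : ℕ, ∃ c : ℝ, 0 ≤ c ∧
    ∑ i, Set.indicator {i | (p, i) ∉ T} (fun i => β p i ^ (k + 1)) i = (c : ℂ)
  /-- the conductor -/
  one_le : 1 ≤ Q
  /-- the component at infinity is unitary -/
  conj : Multiset.map (fun j => (starRingEnd ℂ) (κ j)) Finset.univ.val = Multiset.map κ Finset.univ.val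
  /-- the bound of Jacquet and Shalika at infinity -/
  re : ∀ j, -1 < (κ j).re
  /-- a second factor `Γ_ℝ(s)`; for `n ≥ 3` there always is one, for `n = 2` if `Π_∞` is a principal series -/
  zero : ∃ j, κ j = 0
  /-- `L(s, Π × Π~) = G(s) / (s - 1)`, `Ξ(s) = s (s - 1) Q^s Γ_ℝ(s) ∏_j Γ_ℝ(s + κ_j) L(s, Π × Π~)` -/
  continuation : ∃ (G Ξ : ℂ → ℂ) (ω : ℂ), Differentiable ℂ G ∧ Differentiable ℂ Ξ ∧ ‖ω‖ = 1 ∧
    (∀ s : ℂ, 1 < s.re → G s * ∏ p ∈ S, ∏ i, (1 - β p i * ((p : ℕ) : ℂ) ^ (-s)) =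
      (s - 1) * riemannZeta s * Complex.exp (logAd α s)) ∧
    (∀ a b : ℝ, ∃ C A : ℝ, ∀ s : ℂ, a ≤ s.re → s.re ≤ b → ‖G s‖ ≤ C * (1 + |s.im|) ^ A) ∧
    (∀ s : ℂ, 1 < s.re → Ξ s = s * G s * ((Q : ℂ) ^ s * Complex.Gammaℝ s * ∏ j, Complex.Gammaℝ (s + κ j))) ∧
    ∀ s : ℂ, Ξ (1 - s) = ω * Ξ s

/-- the quantity which bounds the least prime power: the conductor `Q²`, the size of the Gamma factors, and the
removed factors -/
noncomputable def size {n : ℕ} (T : Finset (Nat.Primes × Fin (n ^ 2 - 1))) (κ : Fin (n ^ 2 - 1) → ℂ) (Q : ℝ) : ℝ :=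
  Q ^ 2 * (∏ j, (1 + ‖κ j‖)) * ∏ x ∈ T, ((x.1 : ℕ) : ℝ)

/-- the Satake parameters of the adjoint lift `Ad π` to `GL_3` of a representation `π` of `GL_2` -/
noncomputable def lift3 (a : Fin 2 → ℂ) : Fin 3 → ℂ := ![a 0 / a 1, 1, a 1 / a 0]

/-- the Satake parameters of the lift `A⁴ π = Sym⁴ π ⊗ ω^{-2}` to `GL_5` of a representation `π` of `GL_2` with the
central character `ω` -/
noncomputable def lift5 (a : Fin 2 → ℂ) : Fin 5 → ℂ :=
  ![(a 0 / a 1) ^ 2, a 0 / a 1, 1, a 1 / a 0, (a 1 / a 0) ^ 2]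

/-- for every `p ∉ S` the numbers `|α_σ(p) + β_σ(p)|²` are the conjugates of an algebraic integer of `F` -/
def IntegralConjugates {F : Type} [Field F] [NumberField F] {S : Finset Nat.Primes}
    (α : (F →+* ℂ) → Unram S → Fin 2 → ℂ) : Prop :=
  ∀ p : Unram S, ∃ y : 𝓞 F, ∀ σ : F →+* ℂ, σ (y : F) = ((‖α σ p 0 + α σ p 1‖ ^ 2 : ℝ) : ℂ)

theorem norm_sq {a : Fin 2 → ℂ} (hu : Unitary a) (k : ℕ) :
    ((‖a 0 ^ k + a 1 ^ k‖ ^ 2 : ℝ) : ℂ) = (a 0 / a 1) ^ k + ((a 0 / a 1) ^ k)⁻¹ + 2 := by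
  obtain ⟨h0, τ, hτ⟩ := hu
  have h1 : (starRingEnd ℂ) (a 0 ^ k + a 1 ^ k) = (a 0 ^ k)⁻¹ + (a 1 ^ k)⁻¹ := by
    have h2 : ∑ i, (starRingEnd ℂ) (a i) ^ k = ∑ i, (a i ^ k)⁻¹ := by
      rw [← Equiv.sum_comp τ fun i => (a i ^ k)⁻¹]
      refine Finset.sum_congr rfl fun i _ => ?_
      rw [hτ i, inv_pow, inv_inv]
    rw [Fin.sum_univ_two, Fin.sum_univ_two] at h2
    rw [map_add, map_pow, map_pow, h2]
  have h2 : ((‖a 0 ^ k + a 1 ^ k‖ ^ 2 : ℝ) : ℂ) =
      (a 0 ^ k + a 1 ^ k) * (starRingEnd ℂ) (a 0 ^ k + a 1 ^ k) := by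
    rw [Complex.mul_conj, Complex.normSq_eq_norm_sq]
  rw [h2, h1]
  have h3 := pow_ne_zero k (h0 0)
  have h4 := pow_ne_zero k (h0 1)
  rw [div_pow, inv_div]
  field_simp
  ring

theorem ratio_ne {a : Fin 2 → ℂ} (hu : Unitary a) : a 0 / a 1 ≠ 0 := div_ne_zero (hu.1 0) (hu.1 1)

theorem sum_lift3 (a : Fin 2 → ℂ) (k : ℕ) :
    ∑ j, lift3 a j ^ k = (a 0 / a 1) ^ k + ((a 0 / a 1) ^ k)⁻¹ + 1 := by
  have h1 : a 1 / a 0 = (a 0 / a 1)⁻¹ := (inv_div _ _).symm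
  rw [Fin.sum_univ_three]
  simp only [lift3, Matrix.cons_val_zero, Matrix.cons_val_one, Matrix.cons_val_two, Matrix.head_cons,
    Matrix.tail_cons, one_pow, h1, inv_pow]
  ring

theorem sum_lift5 {a : Fin 2 → ℂ} (hu : Unitary a) (k : ℕ) :
    ∑ j, lift5 a j ^ k =
      ((a 0 / a 1) ^ k + ((a 0 / a 1) ^ k)⁻¹) ^ 2 + ((a 0 / a 1) ^ k + ((a 0 / a 1) ^ k)⁻¹) - 1 := by
  have h1 : a 1 / a 0 = (a 0 / a 1)⁻¹ := (inv_div _ _).symm
  have h2 : (a 0 / a 1) ^ k ≠ 0 := pow_ne_zero _ (ratio_ne hu)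
  rw [Fin.sum_univ_five]
  simp only [lift5, Matrix.cons_val_zero, Matrix.cons_val_one, Matrix.cons_val_two, Matrix.head_cons,
    Matrix.tail_cons, Matrix.cons_val_three, Matrix.cons_val_four, one_pow, h1, inv_pow]
  rw [← pow_mul, mul_comm 2 k, pow_mul]
  generalize (a 0 / a 1) ^ k = z at h2
  field_simp
  ring

/-- the general statement for a lift of dimension `n` whose traces are conjugate algebraic integers -/
theorem main (n : ℕ) {ε : ℝ} (hε : 0 < ε) (m : ℕ) (hm : 0 < m) :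
    ∃ A : ℝ, 0 < A ∧ ∀ (F : Type) [Field F] [NumberField F], Module.finrank ℚ F = m →
      ∀ (S : Finset Nat.Primes) (α : (F →+* ℂ) → Unram S → Fin n → ℂ)
      (β : (F →+* ℂ) → Nat.Primes → Fin (n ^ 2 - 1) → ℂ)
      (T : (F →+* ℂ) → Finset (Nat.Primes × Fin (n ^ 2 - 1)))
      (κ : (F →+* ℂ) → Fin (n ^ 2 - 1) → ℂ) (Q : (F →+* ℂ) → ℝ),
      (∀ σ, CuspidalQ (α σ) (β σ) (T σ) (κ σ) (Q σ)) →
      ∀ u : Unram S → ℕ → 𝓞 F, (∀ p k σ, ‖∑ j, α σ p j ^ k‖ ^ 2 = ‖σ (u p k : F)‖) →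
      ∃ (p : Unram S) (k : ℕ), 1 ≤ k ∧
        ((p.1 : ℕ) : ℝ) ^ k ≤ A * (∏ σ, size (T σ) (κ σ) (Q σ)) ^ (1 + ε) ∧ u p k = 0 := by
  obtain ⟨A, hA0, hA⟩ := Pool.Agent.Y725.UG.rat_many n m (n ^ 2 - 1) (n ^ 2 - 1) hε
  refine ⟨A, hA0, fun F _ _ hF S α β T κ Q h u hu => ?_⟩
  have hcard : Fintype.card (F →+* ℂ) = m := by rw [NumberField.Embeddings.card, hF]
  obtain ⟨e⟩ : Nonempty (Fin m ≃ (F →+* ℂ)) := ⟨(Fintype.equivFinOfCardEq hcard).symm⟩
  obtain ⟨p, k, hk, hle, hlt⟩ := hA S (fun i => α (e i)) (fun i => β (e i)) (fun i => T (e i)) (fun i => κ (e i))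
    (fun i => Q (e i)) hm
    (fun i => ⟨(h (e i)).bound, (h (e i)).ramified, (h (e i)).removed, (h (e i)).nonneg, (h (e i)).one_le,
      (h (e i)).conj, (h (e i)).re, (h (e i)).zero, (h (e i)).continuation⟩)
  refine ⟨p, k, hk, ?_, ?_⟩
  · refine le_trans hle (le_of_eq ?_)
    congr 2
    exact Equiv.prod_comp e fun σ => size (T σ) (κ σ) (Q σ)
  · by_contra hne
    have h1 := Pool.Agent.X289.Burn.finrank_le hne
    rw [hF] at h1
    have h2 : ∑ i, ‖∑ j, α (e i) p j ^ k‖ ^ 2 = ∑ σ : F →+* ℂ, ‖σ (u p k : F)‖ := by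
      rw [← Equiv.sum_comp e]
      exact Finset.sum_congr rfl fun i _ => by rw [hu]
    rw [h2] at hlt
    linarith

/-- **The field of coefficients.** -/
theorem result {ε : ℝ} (hε : 0 < ε) (m : ℕ) (hm : 0 < m) :
    ∃ A : ℝ, 0 < A ∧ ∀ (F : Type) [Field F] [NumberField F], Module.finrank ℚ F = m →
      ∀ (S : Finset Nat.Primes) (α : (F →+* ℂ) → Unram S → Fin 2 → ℂ),
      (∀ σ p, Unitary (α σ p)) → IntegralConjugates α →
      (∀ (β : (F →+* ℂ) → Nat.Primes → Fin (5 ^ 2 - 1) → ℂ) (T : (F →+* ℂ) → Finset (Nat.Primes × Fin (5 ^ 2 - 1)))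
        (κ : (F →+* ℂ) → Fin (5 ^ 2 - 1) → ℂ) (Q : (F →+* ℂ) → ℝ),
        (∀ σ, CuspidalQ (fun p => lift5 (α σ p)) (β σ) (T σ) (κ σ) (Q σ)) →
        (∃ (p : Unram S) (k : ℕ), 1 ≤ k ∧
          ((p.1 : ℕ) : ℝ) ^ k ≤ A * (∏ σ, size (T σ) (κ σ) (Q σ)) ^ (1 + ε) ∧
          ∀ σ, IsPrimitiveRoot ((α σ p 0 / α σ p 1) ^ k) 5) ∧ ∃ x : F, x ^ 2 = 5) ∧
      (∀ (β : (F →+* ℂ) → Nat.Primes → Fin (3 ^ 2 - 1) → ℂ) (T : (F →+* ℂ) → Finset (Nat.Primes × Fin (3 ^ 2 - 1)))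
        (κ : (F →+* ℂ) → Fin (3 ^ 2 - 1) → ℂ) (Q : (F →+* ℂ) → ℝ),
        (∀ σ, CuspidalQ (fun p => lift3 (α σ p)) (β σ) (T σ) (κ σ) (Q σ)) →
        ∃ (p : Unram S) (k : ℕ), 1 ≤ k ∧
          ((p.1 : ℕ) : ℝ) ^ k ≤ A * (∏ σ, size (T σ) (κ σ) (Q σ)) ^ (1 + ε) ∧
          ∀ σ, IsPrimitiveRoot ((α σ p 0 / α σ p 1) ^ k) 3) ∧
      (∀ (β : (F →+* ℂ) → Nat.Primes → Fin (2 ^ 2 - 1) → ℂ) (T : (F →+* ℂ) → Finset (Nat.Primes × Fin (2 ^ 2 - 1)))
        (κ : (F →+* ℂ) → Fin (2 ^ 2 - 1) → ℂ) (Q : (F →+* ℂ) → ℝ),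
        (∀ σ, CuspidalQ (α σ) (β σ) (T σ) (κ σ) (Q σ)) →
        ∃ (p : Unram S) (k : ℕ), 1 ≤ k ∧
          ((p.1 : ℕ) : ℝ) ^ k ≤ A * (∏ σ, size (T σ) (κ σ) (Q σ)) ^ (1 + ε) ∧
          ∀ σ, IsPrimitiveRoot ((α σ p 0 / α σ p 1) ^ k) 2) := by
  obtain ⟨A5, hA5, h5⟩ := main 5 hε m hm
  obtain ⟨A3, hA3, h3⟩ := main 3 hε m hm
  obtain ⟨A2, hA2, h2⟩ := main 2 hε m hm
  refine ⟨max A5 (max A3 A2), lt_of_lt_of_le hA5 (le_max_left _ _), fun F _ _ hF S α hu hα => ?_⟩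
  choose y hy using hα
  have ht : ∀ (p : Unram S) (σ : F →+* ℂ), σ ((y p - 2 : 𝓞 F) : F) =
      α σ p 0 / α σ p 1 + (α σ p 0 / α σ p 1)⁻¹ := by
    intro p σ
    have e1 : ((y p - 2 : 𝓞 F) : F) = (y p : F) - 2 := by push_cast; rfl
    have e2 := norm_sq (hu σ p) 1
    rw [pow_one, pow_one, pow_one] at e2
    rw [e1, map_sub, hy, e2, map_ofNat]
    ring
  choose d hd using fun (p : Unram S) (k : ℕ) => Pool.Agent.X289.Burn.dickson (y p - 2) k
  have hd' : ∀ p k (σ : F →+* ℂ), σ (d p k : F) =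
      (α σ p 0 / α σ p 1) ^ k + ((α σ p 0 / α σ p 1) ^ k)⁻¹ :=
    fun p k σ => hd p k σ _ (ratio_ne (hu σ p)) (ht p σ)
  have hpos : ∀ {n : ℕ} (T : (F →+* ℂ) → Finset (Nat.Primes × Fin (n ^ 2 - 1)))
      (κ : (F →+* ℂ) → Fin (n ^ 2 - 1) → ℂ) (Q : (F →+* ℂ) → ℝ),
      0 ≤ (∏ σ, size (T σ) (κ σ) (Q σ)) ^ (1 + ε) := fun T κ Q =>
    Real.rpow_nonneg (Finset.prod_nonneg fun σ _ => by unfold size; positivity) _
  have hz : ∀ p k (σ : F →+* ℂ), (α σ p 0 / α σ p 1) ^ k ≠ 0 := fun p k σ => pow_ne_zero _ (ratio_ne (hu σ p))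
  refine ⟨fun β T κ Q h => ?_, fun β T κ Q h => ?_, fun β T κ Q h => ?_⟩
  · obtain ⟨p, k, hk, hle, h0⟩ := h5 F hF S _ β T κ Q h (fun p k => (d p k ^ 2 + d p k - 1) ^ 2) (fun p k σ => by
      rw [sum_lift5 (hu σ p), ← hd' p k σ, ← norm_pow]
      push_cast
      simp only [map_pow, map_sub, map_add, map_one])
    have h1 : d p k ^ 2 + d p k - 1 = 0 := by simpa using h0
    have h1' : (d p k : F) ^ 2 + (d p k : F) - 1 = 0 := by exact_mod_cast congrArg (algebraMap (𝓞 F) F) h1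
    refine ⟨⟨p, k, hk, hle.trans (mul_le_mul_of_nonneg_right (le_max_left _ _) (hpos T κ Q)), fun σ => ?_⟩,
      2 * (d p k : F) + 1, by linear_combination 4 * h1'⟩
    refine Pool.Agent.X289.Burn.prim_five (hz p k σ) ?_
    rw [← hd' p k σ, ← map_pow, ← map_add, ← map_one σ, ← map_sub, h1', map_zero]
  · obtain ⟨p, k, hk, hle, h0⟩ := h3 F hF S _ β T κ Q h (fun p k => (d p k + 1) ^ 2) (fun p k σ => by
      rw [sum_lift3, ← hd' p k σ, ← norm_pow]
      push_cast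
      simp only [map_pow, map_add, map_one])
    have h1 : d p k + 1 = 0 := by simpa using h0
    have h1' : (d p k : F) + 1 = 0 := by exact_mod_cast congrArg (algebraMap (𝓞 F) F) h1
    refine ⟨p, k, hk, hle.trans (mul_le_mul_of_nonneg_right ((le_max_left _ _).trans (le_max_right _ _))
      (hpos T κ Q)), fun σ => ?_⟩
    refine Pool.Agent.X289.Burn.prim_three (hz p k σ) ?_
    rw [← hd' p k σ, ← map_one σ, ← map_add, h1', map_zero]
  · obtain ⟨p, k, hk, hle, h0⟩ := h2 F hF S _ β T κ Q h (fun p k => d p k + 2) (fun p k σ => by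
      have e1 := norm_sq (hu σ p) k
      rw [← hd' p k σ] at e1
      have e2 : σ ((d p k + 2 : 𝓞 F) : F) = ((‖α σ p 0 ^ k + α σ p 1 ^ k‖ ^ 2 : ℝ) : ℂ) := by
        have e3 : ((d p k + 2 : 𝓞 F) : F) = (d p k : F) + 2 := by push_cast; rfl
        rw [e1, e3, map_add, map_ofNat]
      rw [e2, Complex.norm_real, Fin.sum_univ_two, Real.norm_of_nonneg (by positivity)])
    have h1' : (d p k : F) + 2 = 0 := by
      have e3 := congrArg (algebraMap (𝓞 F) F) (show d p k + 2 = 0 from h0)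
      rw [map_add, map_ofNat, map_zero] at e3
      exact e3
    refine ⟨p, k, hk, hle.trans (mul_le_mul_of_nonneg_right ((le_max_right _ _).trans (le_max_right _ _))
      (hpos T κ Q)), fun σ => ?_⟩
    refine Pool.Agent.X289.Burn.prim_two (hz p k σ) ?_
    rw [← hd' p k σ, ← map_ofNat σ 2, ← map_add, h1', map_zero]

end Pool.Agent.Results.MP_ef641d_nt.FieldOfCoefficients
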