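import Pool.Agent.X320.DS.PatchNF

/-!
# Galois representations for `GL(n)` from finitely many base changes

Let `π` be an algebraic cuspidal automorphic representation of `GL_n` over the number field `K` and let `Q v` be the
characteristic polynomial of the Satake parameter of `π_v ⊗ |det|^{(1-n)/2}`, `v` outside the finite set `S` (which
contains the places above `ℓ`). For a finite extension `F` of `K` consider the `ℓ`-adic Galois representation `ρ_F` of
dimension `n` which should belong to the base change of `π` to `F`. It is often easier to construct `ρ_F` for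
suitable fields `F` only, and one has to descend to `K`. In the known patching lemmas (Blasius-Rogawski,
Sorensen) this is done with infinitely many `F`.

Here finitely many `F` suffice. Let `d` be an upper bound for the dimensions of the spaces of matrices spanned by the
images of the `ρ_F`, for instance `d = n²`, or `d = n` if the `ρ_F` are abelian.

1. Suppose that for every `d + 1` elements of the absolute Galois group of `K` there is one of the given fields
`F` fixed by all of them. If `ρ_F` exists for the given fields `F` then there is a representation `ρ` of the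
absolute Galois group of `K` which corresponds to `π` at all places outside `S`.
2. In particular this holds if `L/K` is a Galois extension whose Galois group is not generated by `d + 1` elements
(for instance `L = K(√a_1, ..., √a_m)` of degree `2^m`, `m = d + 2`), and `ρ_F` exists for all fields `F ≠ K`
between `K` and `L`. (In the example only the quadratic extensions in `L` are needed, by 1.)

Only the places of `F` of degree one over `K` are used: it is assumed that `ρ_F` is trivial on the inertia elements of
its group at the places outside `S` and that the geometric Frobenius elements at `v` (in the absolute Galois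
group of `K`) which fix `F` have the characteristic polynomial `Q v` under `ρ_F`.

Idea of the proof: by Chebotarev's theorem the traces of the `ρ_F` give one function `T` on the absolute Galois group
of `K`. Take the `F` for which the algebra `A` spanned by the image is of largest dimension `r ≤ d`, and a
basis `x_1 = 1, x_2, ..., x_r` of `A` consisting of group elements. The trace form of `A` is nondegenerate as
`ρ_F` is semisimple. For all `x, y` some `F'` is fixed by all `x_i` and by `x, y`; comparing traces one
sees that the algebras of `F'` and `F` can be identified, and the coefficients of `x` in the basis `x_i` depend only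
on `T`. So `x ↦ ρ(x)` with values in `A` is well defined and multiplicative.
-/

set_option autoImplicit false
set_option linter.style.haveILetI false

namespace Pool.Agent.Results.MP_ef641d_nt.FinitePatching

open NumberField IsDedekindDomain Filter Matrix
open Pool.Agent.W401.Cheb (GK IsFrob IsInert)

/-- `W` is stable under `ρ` -/
def Stable {Γ k : Type} [Group Γ] [Field k] {n : ℕ} (ρ : Γ →* GL (Fin n) k) (W : Submodule k (Fin n → k)) : Prop :=
  ∀ g, ∀ w ∈ W, (ρ g : Matrix (Fin n) (Fin n) k) *ᵥ w ∈ W

/-- `ρ` is semisimple: every stable subspace has a stable complement -/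
def Semisimple {Γ k : Type} [Group Γ] [Field k] {n : ℕ} (ρ : Γ →* GL (Fin n) k) : Prop :=
  ∀ W, Stable ρ W → ∃ W', Stable ρ W' ∧ IsCompl W W'

variable {K : Type} [Field K] [NumberField K]

/-- The representation `ρ` of the subgroup `H` of the absolute Galois group of `K` corresponds to the polynomials
`Q v` at the finite places `v` of `K` outside `S`: elements of `H` which are inertia elements at `v` act trivially, and
elements of `H` which are geometric Frobenius elements at `v` have the characteristic polynomial `Q v`.
For `H = ⊤` this is the usual notion; if `H` is the group of the field `F` then it concerns the places of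
`F` of degree one over `K`. -/
def CorrespondsOn {Ω : Type} [Field Ω] {n : ℕ} (H : Subgroup (GK K)) (ρ : H →* GL (Fin n) Ω)
    (S : Set (HeightOneSpectrum (𝓞 K))) (Q : HeightOneSpectrum (𝓞 K) → Polynomial Ω) : Prop :=
  ∀ v, v ∉ S → (∀ τ : H, IsInert v (τ : GK K) → ρ τ = 1) ∧
    ∀ σ : H, IsFrob v ((σ : GK K)⁻¹) → (ρ σ : Matrix (Fin n) (Fin n) Ω).charpoly = Q v

/-- `H` has a continuous semisimple representation which corresponds to `Q` outside `S`, the image spans a
space of dimension at most `d`. -/
def HasRepresentation (n d : ℕ) {Ω : Type} [Field Ω] [TopologicalSpace Ω] (S : Set (HeightOneSpectrum (𝓞 K)))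
    (Q : HeightOneSpectrum (𝓞 K) → Polynomial Ω) (H : Subgroup (GK K)) : Prop :=
  ∃ ρ : H →* GL (Fin n) Ω, Continuous ρ ∧ Semisimple ρ ∧
    Module.finrank Ω (Submodule.span Ω (Set.range fun x => (ρ x : Matrix (Fin n) (Fin n) Ω))) ≤ d ∧
    CorrespondsOn H ρ S Q

theorem part1 {n d : ℕ} (hn : 0 < n) (hd : 0 < d) {Ω : Type} [Field Ω] [CharZero Ω] [TopologicalSpace Ω]
    [IsTopologicalRing Ω] [T2Space Ω] {S : Set (HeightOneSpectrum (𝓞 K))} (hS : S.Finite)
    {Q : HeightOneSpectrum (𝓞 K) → Polynomial Ω} (𝓕 : Set (IntermediateField K (AlgebraicClosure K)))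
    (hfin : ∀ F ∈ 𝓕, FiniteDimensional K F)
    (hcov : ∀ s : Finset (GK K), s.card ≤ d + 1 → ∃ F ∈ 𝓕, ∀ g ∈ s, g ∈ F.fixingSubgroup)
    (hρ : ∀ F ∈ 𝓕, HasRepresentation n d S Q F.fixingSubgroup) :
    ∃ ρ : GK K →* GL (Fin n) Ω, Continuous ρ ∧ Semisimple ρ ∧ ∀ v, v ∉ S →
      (∀ τ, IsInert v τ → ρ τ = 1) ∧
        ∀ σ, IsFrob v σ → (ρ σ⁻¹ : Matrix (Fin n) (Fin n) Ω).charpoly = Q v := by
  refine Pool.Agent.X320.DS.patchNF hn hS (IntermediateField.fixingSubgroup '' 𝓕) ?_ hd ?_ ?_
  · rintro _ ⟨F, hF, rfl⟩
    haveI := hfin F hF
    exact IntermediateField.fixingSubgroup_isOpen F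
  · intro s hs
    obtain ⟨F, hF, h⟩ := hcov s hs
    exact ⟨_, ⟨F, hF, rfl⟩, h⟩
  · rintro _ ⟨F, hF, rfl⟩
    exact hρ F hF

/-- **Galois representations from finitely many base changes.** -/
theorem result (K : Type) [Field K] [NumberField K] (n d : ℕ) (hn : 0 < n) (hd : 0 < d) (Ω : Type) [Field Ω]
    [CharZero Ω] [TopologicalSpace Ω] [IsTopologicalRing Ω] [T2Space Ω] (S : Set (HeightOneSpectrum (𝓞 K)))
    (hS : S.Finite) (Q : HeightOneSpectrum (𝓞 K) → Polynomial Ω) :
    (∀ 𝓕 : Set (IntermediateField K (AlgebraicClosure K)), (∀ F ∈ 𝓕, FiniteDimensional K F) →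
      (∀ s : Finset (GK K), s.card ≤ d + 1 → ∃ F ∈ 𝓕, ∀ g ∈ s, g ∈ F.fixingSubgroup) →
      (∀ F ∈ 𝓕, HasRepresentation n d S Q F.fixingSubgroup) →
      ∃ ρ : GK K →* GL (Fin n) Ω, Continuous ρ ∧ Semisimple ρ ∧ ∀ v, v ∉ S →
        (∀ τ, IsInert v τ → ρ τ = 1) ∧
          ∀ σ, IsFrob v σ → (ρ σ⁻¹ : Matrix (Fin n) (Fin n) Ω).charpoly = Q v) ∧
    ∀ L : IntermediateField K (AlgebraicClosure K), FiniteDimensional K L → IsGalois K L →
      (∀ s : Finset Gal(L/K), s.card ≤ d + 1 → Subgroup.closure (s : Set Gal(L/K)) ≠ ⊤) →
      (∀ F : IntermediateField K (AlgebraicClosure K), F ≠ ⊥ → F ≤ L →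
        HasRepresentation n d S Q F.fixingSubgroup) →
      ∃ ρ : GK K →* GL (Fin n) Ω, Continuous ρ ∧ Semisimple ρ ∧ ∀ v, v ∉ S →
        (∀ τ, IsInert v τ → ρ τ = 1) ∧
          ∀ σ, IsFrob v σ → (ρ σ⁻¹ : Matrix (Fin n) (Fin n) Ω).charpoly = Q v := by
  classical
  refine ⟨fun 𝓕 h1 h2 h3 => part1 hn hd hS 𝓕 h1 h2 h3, fun L hLf hLg hgen hρ => ?_⟩
  haveI := hLf
  haveI := hLg
  refine part1 hn hd hS {F | F ≠ ⊥ ∧ F ≤ L} (fun F hF => ?_) (fun s hs => ?_) fun F hF => hρ F hF.1 hF.2
  · exact FiniteDimensional.of_injective (IntermediateField.inclusion hF.2).toLinearMap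
      (IntermediateField.inclusion hF.2).injective
  · let C : Subgroup Gal(L/K) := Subgroup.closure ((s.image (AlgEquiv.restrictNormalHom L) : Finset _) : Set _)
    have hC : C ≠ ⊤ := hgen _ (Finset.card_image_le.trans hs)
    let F' : IntermediateField K L := IntermediateField.fixedField C
    have hF' : F' ≠ ⊥ := by
      intro h
      apply hC
      have h1 := IntermediateField.fixingSubgroup_fixedField C
      rw [← h1]
      show F'.fixingSubgroup = ⊤
      rw [h, IntermediateField.fixingSubgroup_bot]
    refine ⟨IntermediateField.lift F', ⟨fun h => hF' ?_, IntermediateField.lift_le F'⟩, fun g hg => ?_⟩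
    · apply IntermediateField.lift_injective L
      rw [h, IntermediateField.lift_bot]
    · rw [IntermediateField.mem_fixingSubgroup_iff]
      intro x hx
      obtain ⟨y, hy, rfl⟩ : ∃ y : L, y ∈ F' ∧ (y : AlgebraicClosure K) = x := by
        obtain ⟨y, hy, hyx⟩ := hx
        exact ⟨y, hy, hyx⟩
      have h1 : AlgEquiv.restrictNormalHom L g ∈ C :=
        Subgroup.subset_closure (Finset.mem_coe.2 (Finset.mem_image_of_mem _ hg))
      have h2 := hy ⟨_, h1⟩
      have h3 := AlgEquiv.restrictNormal_commutes g L y
      have h4 : (AlgEquiv.restrictNormalHom L g) y = y := h2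
      exact h3.symm.trans (congrArg _ h4)

end Pool.Agent.Results.MP_ef641d_nt.FinitePatching
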