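import Pool.Agent.X320.DS.Final
import Pool.Agent.X320.DS.Mean

/-!
# Galois representations of weight zero for `GL(n)` from residual representations

Deligne and Serre attached complex Galois representations with finite image to holomorphic newforms of weight one
in two steps: first congruences give representations modulo infinitely many primes `λ` of the coefficient field;
then the Rankin-Selberg estimate and a study of the subgroups of `GL_2` of a finite field show that these
residual representations have bounded images and come from one representation with finite image.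

Here the second step is done for `GL(n)` over any number field `K`.

Let `π` be an algebraic cuspidal automorphic representation of `GL_n` over `K` such that
`π ⊗ |det|^{(1-n)/2}` has weight zero (the numbers `p_i`, `q_i` are zero; for `n ≥ 2` such a `π` is never regular),
unramified outside the finite set `S`. Let `P v` be the characteristic polynomial of the Satake parameter
of `π_v ⊗ |det|^{(1-n)/2}`, with coefficients in the ring of integers of a number field `E`. The conjecture predicts a
representation `ρ` of the absolute Galois group of `K` with finite image such that the geometric Frobenius elements at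
`v` have the characteristic polynomial `P v`. We prove that such a `ρ` exists over every algebraically closed field
`Ω` which contains `E` (for instance over `ℂ` and over `ℚbar_ℓ` for all primes `ℓ`; so the conjecture holds for
`π` and every `ℓ`), if

* for infinitely many prime numbers `ℓ` there is a semisimple representation modulo some prime above `ℓ` which
  corresponds to `P` at the places outside `S` that do not divide `ℓ`, and
* the traces of the `P v` are bounded in mean square, for all embeddings of `E` into `ℂ`. This is what Rankin-Selberg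
  theory gives when the conjugates of `π` are automorphic. It is enough that for some finite set `Y` and some
  `δ > 1 - 1/n²` the traces lie in `Y` (up to sign) for a set of places of lower density at least `δ`.

In this case all Satake parameters are roots of unity (so `π` satisfies the Ramanujan conjecture), and there is
an explicit bound for the order of the image of `ρ`.

Idea of the proof: if `V` is a semisimple representation of dimension `n` of a group `G` and the
characteristic is zero or larger than `n`, there are `r ≤ n²` elements `g_i` of `G` such that `x` acts in the same way as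
`y` as soon as `x g_i` and `y g_i` have equal traces for all `i` (Burnside). If the proportion of the
elements with trace in a set of `M` elements is at least `δ > 1 - 1/n²`, the proportion of the `x` with all `x g_i` in this
set is at least `1 - (1 - δ) n²`, and so the image has at most `M^{n²} / (1 - (1 - δ) n²)` elements. By Chebotarev's
theorem this applies to all residual representations; no classification of subgroups is needed. Then all their kernels
agree for large `ℓ`, the residual representations are taken together in a representation over the quotient of the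
product of the residue fields by a maximal ideal, a field of characteristic zero, and this
representation of a finite group is moved to `Ω`.
-/

set_option autoImplicit false

namespace Pool.Agent.Results.MP_ef641d_nt.ResidualRepresentations

open NumberField IsDedekindDomain Polynomial Filter Matrix
open Pool.Agent.W401.Cheb (GK IsFrob IsInert dens)

/-- `W` is stable under `ρ` -/
def Stable {Γ k : Type} [Group Γ] [Field k] {n : ℕ} (ρ : Γ →* GL (Fin n) k) (W : Submodule k (Fin n → k)) : Prop :=
  ∀ g, ∀ w ∈ W, (ρ g : Matrix (Fin n) (Fin n) k) *ᵥ w ∈ W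

/-- `ρ` is semisimple: every stable subspace has a stable complement -/
def Semisimple {Γ k : Type} [Group Γ] [Field k] {n : ℕ} (ρ : Γ →* GL (Fin n) k) : Prop :=
  ∀ W, Stable ρ W → ∃ W', Stable ρ W' ∧ IsCompl W W'

section

variable {K : Type} [Field K] [NumberField K] {E : Type} [Field E] [NumberField E]

/-- `ρ` corresponds to the polynomials `Q v` at all finite places `v` of `K` outside `S`: the inertia groups
at `v` act trivially, and the geometric Frobenius elements at `v` have the characteristic polynomial `Q v`. -/
def Corresponds {k : Type} [Field k] {n : ℕ} (ρ : GK K →* GL (Fin n) k) (S : Set (HeightOneSpectrum (𝓞 K)))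
    (Q : HeightOneSpectrum (𝓞 K) → k[X]) : Prop :=
  ∀ v, v ∉ S → (∀ τ, IsInert v τ → ρ τ = 1) ∧
    ∀ σ, IsFrob v σ → (ρ σ⁻¹ : Matrix (Fin n) (Fin n) k).charpoly = Q v

/-- There are a field `k` of characteristic `ℓ`, a homomorphism from the ring of integers of `E` to `k`, and a
semisimple representation over `k` with open kernel which corresponds to the polynomials `P v` modulo `ℓ` at all
places outside `S` that do not divide `ℓ`. -/
def HasResidual (n : ℕ) (P : HeightOneSpectrum (𝓞 K) → (𝓞 E)[X]) (S : Set (HeightOneSpectrum (𝓞 K)))
    (ℓ : ℕ) : Prop :=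
  ∃ (k : Type) (_ : Field k) (_ : CharP k ℓ) (φ : 𝓞 E →+* k) (ρ : GK K →* GL (Fin n) k),
    IsOpen (ρ.ker : Set (GK K)) ∧ Semisimple ρ ∧
      Corresponds ρ (S ∪ {v | (ℓ : 𝓞 K) ∈ v.asIdeal}) fun v => (P v).map φ

/-- the mean squares of all conjugates of the numbers `c v`, `v` outside `S`, are bounded -/
def MeanSquareBounded (S : Set (HeightOneSpectrum (𝓞 K))) (c : HeightOneSpectrum (𝓞 K) → 𝓞 E) : Prop :=
  ∀ τ : E →+* ℂ, ∃ C : ℝ, ∀ N : ℕ,
    ∑ᶠ v ∈ {v : HeightOneSpectrum (𝓞 K) | v ∉ S ∧ Ideal.absNorm v.asIdeal ≤ N}, ‖τ (c v)‖ ^ 2 ≤
      C * Nat.primeCounting N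

/-- the set of the places with property `G` has lower density at least `δ` -/
def LowerDensityGe (G : HeightOneSpectrum (𝓞 K) → Prop) (δ : ℝ) : Prop := ∀ᶠ N in atTop, δ ≤ dens G N

/-- The polynomials `P v`, `v` outside `S`, come from Galois representations with finite image of order at most
`A`: the roots of all `P v` are `m`-th roots of unity for some `m`, and for every algebraically closed field
`Ω` and every embedding of `E` there is a semisimple representation over `Ω` with open kernel and image of order at
most `A`, which corresponds to the `P v` at all `v` outside `S`. -/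
def OfGaloisType (n : ℕ) (P : HeightOneSpectrum (𝓞 K) → (𝓞 E)[X]) (S : Set (HeightOneSpectrum (𝓞 K)))
    (A : ℝ) : Prop :=
  (∃ m : ℕ, 0 < m ∧ ∀ v, v ∉ S → P v ∣ (X ^ m - 1) ^ n) ∧
  ∀ (Ω : Type) [Field Ω] [IsAlgClosed Ω] (ψ : E →+* Ω), ∃ ρ : GK K →* GL (Fin n) Ω,
    IsOpen (ρ.ker : Set (GK K)) ∧ (Nat.card ρ.range : ℝ) ≤ A ∧ Semisimple ρ ∧
      Corresponds ρ S fun v => (P v).map (ψ.comp (algebraMap (𝓞 E) E))

theorem ofGaloisType {n : ℕ} (hn : 0 < n) {P : HeightOneSpectrum (𝓞 K) → (𝓞 E)[X]}
    {S : Set (HeightOneSpectrum (𝓞 K))} (hS : S.Finite) (hP : ∀ v, v ∉ S → (P v).Monic)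
    (hinf : {ℓ : ℕ | ℓ.Prime ∧ HasResidual n P S ℓ}.Infinite) (Y : Finset (𝓞 E)) {δ : ℝ}
    (hδ : (1 - δ) * n ^ 2 < 1) (hG : LowerDensityGe (fun v => v ∉ S ∧ (P v).coeff (n - 1) ∈ Y) δ) :
    OfGaloisType n P S (((Y.card : ℝ) + 1) ^ (n ^ 2) / (1 - (1 - δ) * n ^ 2)) := by
  obtain ⟨N, hN, hNo, hcard, hm, hρ⟩ := Pool.Agent.X320.DS.final hn hS hP Y hδ hG (hinf.mono (by
    rintro ℓ ⟨hℓ, k, fk, ck, φ, ρ, h1, h2, h3⟩
    exact ⟨hℓ, k, fk, ck, φ, ρ, h1, h2, fun v hv hvℓ => h3 v (by
      rintro (h | h)
      · exact hv h
      · exact hvℓ h)⟩))
  refine ⟨hm, fun Ω _ _ ψ => ?_⟩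
  obtain ⟨ρ, hker, hss, hch⟩ := hρ Ω ψ
  have hfin : Finite (GK K ⧸ N) := Subgroup.quotient_finite_of_isOpen _ hNo
  refine ⟨ρ, Subgroup.isOpen_mono hker hNo, ?_, hss, hch⟩
  have h1 : Nat.card ρ.range ≤ Nat.card (GK K ⧸ N) := by
    rw [← Nat.card_congr (QuotientGroup.quotientKerEquivRange ρ).toEquiv]
    refine Nat.card_le_card_of_surjective (QuotientGroup.map N ρ.ker (MonoidHom.id _) hker) fun q => ?_
    obtain ⟨g, rfl⟩ := QuotientGroup.mk_surjective q
    exact ⟨QuotientGroup.mk g, rfl⟩
  rw [le_div_iff₀ (by linarith)]
  refine le_trans ?_ hcard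
  have h2 : (Nat.card ρ.range : ℝ) ≤ (Nat.card (GK K ⧸ N) : ℝ) := by exact_mod_cast h1
  exact mul_le_mul_of_nonneg_right h2 (by linarith)

end

/-- **From residual representations to an Artin representation, for `GL(n)`.** Let `S` be a finite set of finite
places of the number field `K`, and let `P v`, `v` outside `S`, be monic polynomials with coefficients in the ring of
integers of the number field `E`. Suppose that for infinitely many prime numbers `ℓ` there is a semisimple
`n`-dimensional representation of the absolute Galois group of `K` in characteristic `ℓ` which corresponds to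
`P` modulo `ℓ` outside `S` and `ℓ`.

1. If `Y` is finite, `δ > 1 - 1/n²`, and for a set of places `v` of lower density at least `δ` the coefficient of
`X^(n-1)` in `P v` is in `Y`, then `P` comes from a Galois representation in characteristic zero with image of
order at most `(|Y| + 1)^(n²) / (1 - (1 - δ) n²)`.
2. The same, with some bound, if the coefficients of `X^(n-1)` in the `P v` are bounded in mean square at all
embeddings. -/
theorem result (K : Type) [Field K] [NumberField K] (E : Type) [Field E] [NumberField E] (n : ℕ) (hn : 0 < n)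
    (S : Set (HeightOneSpectrum (𝓞 K))) (hS : S.Finite) (P : HeightOneSpectrum (𝓞 K) → (𝓞 E)[X])
    (hP : ∀ v, v ∉ S → (P v).Monic) (hres : {ℓ : ℕ | ℓ.Prime ∧ HasResidual n P S ℓ}.Infinite) :
    (∀ (Y : Finset (𝓞 E)) (δ : ℝ), (1 - δ) * n ^ 2 < 1 →
      LowerDensityGe (fun v => v ∉ S ∧ (P v).coeff (n - 1) ∈ Y) δ →
      OfGaloisType n P S (((Y.card : ℝ) + 1) ^ (n ^ 2) / (1 - (1 - δ) * n ^ 2))) ∧
    (MeanSquareBounded S (fun v => (P v).coeff (n - 1)) → ∃ A : ℝ, OfGaloisType n P S A) := by
  refine ⟨fun Y δ hδ hG => ofGaloisType hn hS hP hres Y hδ hG, fun h => ?_⟩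
  have hn2 : (1 : ℝ) ≤ (n : ℝ) ^ 2 := by
    have : (1 : ℝ) ≤ (n : ℝ) := by exact_mod_cast hn
    nlinarith
  have hδ1 : 1 - 1 / (2 * (n : ℝ) ^ 2) < 1 := by
    have : 0 < 1 / (2 * (n : ℝ) ^ 2) := by positivity
    linarith
  obtain ⟨Y, hY⟩ := Pool.Agent.X320.DS.few_values hS h hδ1
  refine ⟨_, ofGaloisType hn hS hP hres Y (δ := 1 - 1 / (2 * (n : ℝ) ^ 2)) ?_ hY⟩
  have h1 : (1 - (1 - 1 / (2 * (n : ℝ) ^ 2))) * (n : ℝ) ^ 2 = 1 / 2 := by
    field_simp
    ring
  rw [h1]
  norm_num

end Pool.Agent.Results.MP_ef641d_nt.ResidualRepresentations
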