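import Pool.Agent.X289.TF.Main

/-!
# Patching Galois representations along arbitrary linearly disjoint extensions

Let `π` be an algebraic cuspidal automorphic representation of `GL_n` over the number field `K` (`K = ℚ` in Q1) and
let `Q v` be the characteristic polynomial of the Satake parameter of `π_v ⊗ |det|^{(1-n)/2}`, `v` outside the finite
set `S` (which contains the places above `ℓ`). Often an `ℓ`-adic representation `ρ_F` which belongs to `π` can only
be constructed for the absolute Galois group of an extension `F` of `K` (base change, potential automorphy), and one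
has to descend to `K`. The known patching lemmas (Blasius-Rogawski for quadratic extensions, Sorensen
for solvable Galois extensions) need infinitely many Galois extensions `F` of prime degree, or solvable ones.

Here the extensions are arbitrary finite extensions: not necessarily Galois and not necessarily solvable,
and only the places of `F` of degree one over `K` are used.

1. Two fields. Let `ρ₁` be an `n`-dimensional continuous semisimple representation for `F₁` which corresponds to the
polynomials `Q v`. There is a finite Galois extension `M` of `K` such that for every finite extension `F₂` with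
`F₂ ∩ M = K` and every `ρ₂` for `F₂` which corresponds to the `Q v`: the representation `ρ₂` extends to a continuous
semisimple representation `ρ` of the absolute Galois group of `K`. The restriction of `ρ` to the group of `F₁` has
the trace of `ρ₁`. Moreover `ρ` corresponds to `Q v` for all `v ∉ S` which have a place of degree one in `F₁`
or in `F₂`.

2. Families. Let `𝓕` be a set of finite extensions of `K` which have such representations. Suppose that for every
finite Galois extension `M` of `K` there is an `F` in `𝓕` with `F ∩ M = K`. Then there are a continuous semisimple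
representation `ρ` of the absolute Galois group of `K` and a finite Galois extension `M₀` of `K` such that `ρ`
corresponds to `Q v` for all `v ∉ S` which have a place of degree one in some `F` in `𝓕` with `F ∩ M₀ = K`.
So `ρ` corresponds to the `Q v` for all `v ∉ S` if `F` can always be chosen such that moreover a conjugate of a given
Frobenius or inertia element at a place outside `S` fixes `F`. (This is so if for all `M` and all `v ∉ S` there is
an `F` in `𝓕` with `F ∩ M = K` and with a place `w` above `v` with `F_w = K_v`.)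

Idea of the proof: let `N` be an open normal subgroup of `G_K` contained in the group of `F₁`. The algebra
spanned by `ρ₁ N` is spanned by `ρ₁ (N ∩ G_F₂)` if `F₂` is linearly disjoint from a certain finite extension, as
this is an open condition (Gram determinant of traces). By Chebotarev's theorem `ρ₁` and `ρ₂` have the same traces, and
`tr ρ₁` is invariant under conjugation by `G_K`. By Clifford's theorem the restrictions to normal
subgroups are semisimple, so their trace forms are nondegenerate; hence the linear relations between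
the elements of `ρ₁ (N ∩ G_F₂)` and those of `ρ₂ (N ∩ G_F₂)` are the same. So `ρ₁` on `N` can be transferred to a
representation `t` of `N` with values in the algebra spanned by `ρ₂ (N ∩ G_F₂)`, and `ρ (h u) = ρ₂ (h) t (u)` for
`h` in `G_F₂` and `u` in `N` is the representation.
-/

set_option autoImplicit false

namespace Pool.Agent.Results.MP_ef641d_nt.TwoFieldPatching

open NumberField IsDedekindDomain Matrix
open Pool.Agent.W401.Cheb (GK IsFrob IsInert)

/-- `W` is stable under `ρ` -/
def Stable {Γ k : Type} [Group Γ] [Field k] {n : ℕ} (ρ : Γ →* GL (Fin n) k) (W : Submodule k (Fin n → k)) : Prop :=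
  ∀ g, ∀ w ∈ W, (ρ g : Matrix (Fin n) (Fin n) k) *ᵥ w ∈ W

/-- `ρ` is semisimple: every stable subspace has a stable complement -/
def Semisimple {Γ k : Type} [Group Γ] [Field k] {n : ℕ} (ρ : Γ →* GL (Fin n) k) : Prop :=
  ∀ W, Stable ρ W → ∃ W', Stable ρ W' ∧ IsCompl W W'

variable {K : Type} [Field K] [NumberField K]

/-- The representation `ρ` of the subgroup `H` of the absolute Galois group of `K` corresponds to the polynomials
`Q v` at the finite places `v` of `K` outside `S`: elements of `H` which are inertia elements at `v` act trivially, and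
elements of `H` which are geometric Frobenius elements at `v` have the characteristic polynomial `Q v`.
If `H` is the group of the field `F` then it concerns the places of `F` of degree one over `K`. -/
def CorrespondsOn {Ω : Type} [Field Ω] {n : ℕ} (H : Subgroup (GK K)) (ρ : H →* GL (Fin n) Ω)
    (S : Set (HeightOneSpectrum (𝓞 K))) (Q : HeightOneSpectrum (𝓞 K) → Polynomial Ω) : Prop :=
  ∀ v, v ∉ S → (∀ τ : H, IsInert v (τ : GK K) → ρ τ = 1) ∧
    ∀ σ : H, IsFrob v ((σ : GK K)⁻¹) → (ρ σ : Matrix (Fin n) (Fin n) Ω).charpoly = Q v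

/-- a conjugate of `σ` fixes all elements of the field `F` -/
def ConjFixes (F : IntermediateField K (AlgebraicClosure K)) (σ : GK K) : Prop :=
  ∃ g : GK K, g⁻¹ * σ * g ∈ F.fixingSubgroup

/-- **Patching of Galois representations along arbitrary linearly disjoint extensions.** -/
theorem result (K : Type) [Field K] [NumberField K] (n : ℕ) (Ω : Type) [Field Ω] [CharZero Ω] [TopologicalSpace Ω]
    [IsTopologicalRing Ω] [T2Space Ω] (S : Set (HeightOneSpectrum (𝓞 K))) (hS : S.Finite)
    (Q : HeightOneSpectrum (𝓞 K) → Polynomial Ω) :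
    (∀ F₁ : IntermediateField K (AlgebraicClosure K), FiniteDimensional K F₁ →
      ∀ ρ₁ : F₁.fixingSubgroup →* GL (Fin n) Ω, Continuous ρ₁ → Semisimple ρ₁ →
        CorrespondsOn F₁.fixingSubgroup ρ₁ S Q →
      ∃ M : IntermediateField K (AlgebraicClosure K), FiniteDimensional K M ∧ IsGalois K M ∧
        ∀ F₂ : IntermediateField K (AlgebraicClosure K), FiniteDimensional K F₂ → F₂ ⊓ M = ⊥ →
        ∀ ρ₂ : F₂.fixingSubgroup →* GL (Fin n) Ω, Continuous ρ₂ → Semisimple ρ₂ →
          CorrespondsOn F₂.fixingSubgroup ρ₂ S Q →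
        ∃ ρ : GK K →* GL (Fin n) Ω, Continuous ρ ∧ Semisimple ρ ∧ (∀ x : F₂.fixingSubgroup, ρ x = ρ₂ x) ∧
          (∀ x : F₁.fixingSubgroup, (ρ x : Matrix (Fin n) (Fin n) Ω).trace =
            (ρ₁ x : Matrix (Fin n) (Fin n) Ω).trace) ∧
          ∀ v, v ∉ S →
            (∀ τ, IsInert v τ → ConjFixes F₁ τ ∨ ConjFixes F₂ τ → ρ τ = 1) ∧
            ∀ σ, IsFrob v σ → ConjFixes F₁ σ ∨ ConjFixes F₂ σ →
              (ρ σ⁻¹ : Matrix (Fin n) (Fin n) Ω).charpoly = Q v) ∧
    ∀ 𝓕 : Set (IntermediateField K (AlgebraicClosure K)), (∀ F ∈ 𝓕, FiniteDimensional K F) →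
      (∀ F ∈ 𝓕, ∃ ρ : F.fixingSubgroup →* GL (Fin n) Ω, Continuous ρ ∧ Semisimple ρ ∧
        CorrespondsOn F.fixingSubgroup ρ S Q) →
      (∀ M : IntermediateField K (AlgebraicClosure K), FiniteDimensional K M → IsGalois K M →
        ∃ F ∈ 𝓕, F ⊓ M = ⊥) →
      ∃ ρ : GK K →* GL (Fin n) Ω, Continuous ρ ∧ Semisimple ρ ∧
        (∃ M₀ : IntermediateField K (AlgebraicClosure K), FiniteDimensional K M₀ ∧ IsGalois K M₀ ∧
          ∀ F ∈ 𝓕, F ⊓ M₀ = ⊥ → ∀ v, v ∉ S → ∀ σ, ConjFixes F σ → (IsInert v σ → ρ σ = 1) ∧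
            (IsFrob v σ → (ρ σ⁻¹ : Matrix (Fin n) (Fin n) Ω).charpoly = Q v)) ∧
        ((∀ M : IntermediateField K (AlgebraicClosure K), FiniteDimensional K M → IsGalois K M →
          ∀ v, v ∉ S → ∀ σ : GK K, (IsFrob v σ ∨ IsInert v σ) → ∃ F ∈ 𝓕, F ⊓ M = ⊥ ∧ ConjFixes F σ) →
          ∀ v, v ∉ S → (∀ τ, IsInert v τ → ρ τ = 1) ∧
            ∀ σ, IsFrob v σ → (ρ σ⁻¹ : Matrix (Fin n) (Fin n) Ω).charpoly = Q v) := by
  have hn : ((n.factorial : ℕ) : Ω) ≠ 0 := by exact_mod_cast n.factorial_ne_zero
  constructor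
  · intro F₁ hF₁ ρ₁ hc₁ hs₁ hQ₁
    obtain ⟨U, hUn, hUo, hU⟩ := Pool.Agent.X289.TF.nf_two hn hS F₁.fixingSubgroup
      (IntermediateField.fixingSubgroup_isOpen F₁) ρ₁ hc₁ hs₁ hQ₁
    obtain ⟨M, hM1, hM2, hM3⟩ := Pool.Agent.X289.TF.exists_field U hUn hUo
    refine ⟨M, hM1, hM2, fun F₂ hF₂ hd ρ₂ hc₂ hs₂ hQ₂ => ?_⟩
    have := hF₂
    have := hM2
    have hg := Pool.Agent.X289.TF.gen_of_inf F₂ M hd
    rw [hM3] at hg
    obtain ⟨ρ, h1, h2, h3, h4, h5⟩ := hU F₂.fixingSubgroup (IntermediateField.fixingSubgroup_isOpen F₂) hg ρ₂ hc₂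
      hs₂ hQ₂
    refine ⟨ρ, h1, h2, h3, h4, fun v hv => ⟨fun τ hτ h => ?_, fun σ hσ h => ?_⟩⟩
    · rcases h with ⟨g, hg⟩ | ⟨g, hg⟩
      · exact (h5 v hv).2.1 τ hτ inferInstance g hg
      · exact (h5 v hv).1 τ hτ g hg
    · rcases h with ⟨g, hg⟩ | ⟨g, hg⟩
      · exact (h5 v hv).2.2 σ hσ g (Or.inl hg)
      · exact (h5 v hv).2.2 σ hσ g (Or.inr hg)
  · intro 𝓕 hfin hρ hlarge
    obtain ⟨ρ, hc, hs, U, hUn, hUo, hU⟩ := Pool.Agent.X289.TF.nf_family hn hS (Q := Q)
      (IntermediateField.fixingSubgroup '' 𝓕) (by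
        rintro _ ⟨F, hF, rfl⟩
        have := hfin F hF
        exact IntermediateField.fixingSubgroup_isOpen F) (by
        rintro _ ⟨F, hF, rfl⟩
        exact hρ F hF) (fun U hUn hUo => by
        obtain ⟨M, hM1, hM2, hM3⟩ := Pool.Agent.X289.TF.exists_field U hUn hUo
        obtain ⟨F, hF, hFM⟩ := hlarge M hM1 hM2
        have := hfin F hF
        have := hM2
        refine ⟨_, ⟨F, hF, rfl⟩, ?_⟩
        rw [← hM3]
        exact Pool.Agent.X289.TF.gen_of_inf F M hFM)
    obtain ⟨M, hM1, hM2, hM3⟩ := Pool.Agent.X289.TF.exists_field U hUn hUo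
    have key : ∀ F ∈ 𝓕, F ⊓ M = ⊥ → ∀ v, v ∉ S → ∀ σ, ConjFixes F σ → (IsInert v σ → ρ σ = 1) ∧
            (IsFrob v σ → (ρ σ⁻¹ : Matrix (Fin n) (Fin n) Ω).charpoly = Q v) := by
      rintro F hF hFM v hv σ ⟨g, hg⟩
      have := hfin F hF
      have := hM2
      have hgen := Pool.Agent.X289.TF.gen_of_inf F M hFM
      rw [hM3] at hgen
      exact hU _ ⟨F, hF, rfl⟩ hgen v hv σ g hg
    refine ⟨ρ, hc, hs, ⟨M, hM1, hM2, key⟩, fun hcov v hv => ⟨fun τ hτ => ?_, fun σ hσ => ?_⟩⟩
    · obtain ⟨F, hF, hFM, hFσ⟩ := hcov M hM1 hM2 v hv τ (Or.inr hτ)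
      exact (key F hF hFM v hv τ hFσ).1 hτ
    · obtain ⟨F, hF, hFM, hFσ⟩ := hcov M hM1 hM2 v hv σ (Or.inl hσ)
      exact (key F hF hFM v hv σ hFσ).2 hσ

end Pool.Agent.Results.MP_ef641d_nt.TwoFieldPatching
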